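import Pool.Agent.Lib.MP_af3016_co.G.All

set_option autoImplicit false

namespace Pool.Agent.Results.MP_af3016_co.Full

/-- El-Zahar's conjecture for all graphs and all lists of lengths, with no lower bound on the
number of vertices: if `k` is at least 1, the integers `n 1, ..., n k` are at least 3 and sum to
the number of vertices, and every vertex has degree at least the sum of the ceilings of `n i / 2`,
then there are pairwise vertex-disjoint cycles of lengths `n 1, ..., n k`. -/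
theorem result :
    ∀ (V : Type) [Fintype V] (G : SimpleGraph V) [DecidableRel G.Adj] (k : ℕ) (n : Fin k → ℕ),
      1 ≤ k →
      (∀ i, 3 ≤ n i) →
      Fintype.card V = ∑ i, n i →
      (∀ x : V, ∑ i, ⌈(n i : ℚ) / 2⌉₊ ≤ G.degree x) →
      ∃ (v : Fin k → V) (c : ∀ i, G.Walk (v i) (v i)),
        (∀ i, (c i).IsCycle ∧ (c i).length = n i) ∧
        ∀ i j, i ≠ j → ∀ x : V, x ∈ (c i).support → x ∉ (c j).support := by
  intro V _ G _ k n hk h3 hs hdeg
  classical
  have hne : Nonempty V := by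
    have h1 := Finset.single_le_sum (f := n) (fun i _ => Nat.zero_le (n i))
      (Finset.mem_univ (⟨0, hk⟩ : Fin k))
    have h2 := h3 ⟨0, hk⟩
    exact Fintype.card_pos_iff.1 (by omega)
  have hc : ∀ m : ℕ, (m + 1) / 2 ≤ ⌈(m : ℚ) / 2⌉₊ := fun m => by
    have h1 : (m : ℚ) / 2 ≤ ⌈(m : ℚ) / 2⌉₊ := Nat.le_ceil _
    have h2 : (m : ℚ) ≤ ((2 * ⌈(m : ℚ) / 2⌉₊ : ℕ) : ℚ) := by
      push_cast
      linarith
    have h3 : m ≤ 2 * ⌈(m : ℚ) / 2⌉₊ := by exact_mod_cast h2
    omega
  obtain ⟨v, c, h1, h2⟩ := Pool.Agent.Lib.MP_af3016_co.mainAll G k n h3 hs.symm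
    (G.le_minDegree_of_forall_le_degree _ fun x =>
      (Finset.sum_le_sum fun i _ => hc (n i)).trans (hdeg x))
  exact ⟨v, c, h1, fun i j hij x hx hx' => Finset.disjoint_left.1 (h2 i j hij)
    (List.mem_toFinset.2 hx) (List.mem_toFinset.2 hx')⟩

end Pool.Agent.Results.MP_af3016_co.Full
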